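import Pool.Agent.U180.NG.Stm2
import Pool.Agent.U55.NG.FLUC

/-!
Project NG, package FLUC2: mean, fluctuations and variance of the number of displaced lattice points
(adapted from `Pool.Agent.U55.NG.FLUC`).
-/

set_option autoImplicit false

open MeasureTheory ProbabilityTheory Filter Topology

namespace Pool.Agent.U810.NG

open Pool.Agent.U180.NG
open Pool.Agent.U55.NG (ind_mem ind_integrable)

theorem t_FLUC2 (h1 : S_CNT) (h2 : S_MEANP) (h3 : S_VAS) : S_FLUC2 := by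
  intro Ω _ P hP δ ρ μ ξ hξ
  obtain ⟨hρ, hmeas, hind, hmean, hae⟩ := h1 Ω P hP δ ρ μ ξ hξ
  obtain ⟨C, hC, hMEAN⟩ := h2
  obtain ⟨hsp, hVAS⟩ := h3 δ ρ μ hξ.pos hξ.le_one hξ.prob hξ.supp
  have hδ := hξ.pos
  -- a.e. count
  have F1 : ∀ R : ℝ, 0 ≤ R → ∀ᵐ ω ∂P, (count (fun z => ξ z ω) R : ℝ) =
      ∑ z ∈ box ⌈R + 2 * ρ + 2⌉₊, ind ξ R z ω := by
    intro R hR
    filter_upwards [hae] with ω hω
    exact (hω.1 R _ hR (Nat.le_ceil _)).2
  have F2 : ∀ R : ℝ, 0 ≤ R → ∫ ω, (count (fun z => ξ z ω) R : ℝ) ∂P =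
      ∑ z ∈ box ⌈R + 2 * ρ + 2⌉₊, ∫ ω, ind ξ R z ω ∂P := by
    intro R hR
    rw [integral_congr_ae (F1 R hR), integral_finset_sum]
    intro z _
    exact ind_integrable P ξ R z (hmeas R z)
  -- outside of the annulus
  have F3 : ∀ R : ℝ, 0 ≤ R → ∀ z ∈ box ⌈R + 2 * ρ + 2⌉₊,
      z ∉ ann (2 * ρ + 1) R ⌈R + 2 * ρ + 2⌉₊ →
      ((∀ᵐ ω ∂P, ind ξ R z ω = 1) ∨ (∀ᵐ ω ∂P, ind ξ R z ω = 0)) := by
    intro R hR z hz hz'
    have h : 2 * ρ + 1 < |Real.sqrt ((z.1 : ℝ) ^ 2 + (z.2 : ℝ) ^ 2) - R| := by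
      by_contra hcon
      exact hz' (Finset.mem_filter.2 ⟨hz, not_lt.1 hcon⟩)
    rcases lt_abs.1 h with h | h
    · right
      filter_upwards [hae] with ω hω
      exact (hω.2 R z hR).2 (by linarith)
    · left
      filter_upwards [hae] with ω hω
      exact (hω.2 R z hR).1 (by linarith)
  have F4 : ∀ R : ℝ, 0 ≤ R → ∀ z ∈ box ⌈R + 2 * ρ + 2⌉₊,
      z ∉ ann (2 * ρ + 1) R ⌈R + 2 * ρ + 2⌉₊ →
      (∫ ω, ind ξ R z ω ∂P) * (1 - ∫ ω, ind ξ R z ω ∂P) = 0 := by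
    intro R hR z hz hz'
    rcases F3 R hR z hz hz' with h | h
    · have : ∫ ω, ind ξ R z ω ∂P = 1 := by
        rw [integral_congr_ae h]; simp
      rw [this]; ring
    · have : ∫ ω, ind ξ R z ω ∂P = 0 := by
        rw [integral_congr_ae h]; simp
      rw [this]; ring
  have F5 : ∀ R : ℝ, 0 ≤ R → ∀ z ∈ box ⌈R + 2 * ρ + 2⌉₊,
      z ∉ ann (2 * ρ + 1) R ⌈R + 2 * ρ + 2⌉₊ →
      ∀ᵐ ω ∂P, ind ξ R z ω - ∫ ω, ind ξ R z ω ∂P = 0 := by
    intro R hR z hz hz'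
    rcases F3 R hR z hz hz' with h | h
    · have : ∫ ω, ind ξ R z ω ∂P = 1 := by
        rw [integral_congr_ae h]; simp
      filter_upwards [h] with ω hω
      rw [this, hω]; ring
    · have : ∫ ω, ind ξ R z ω ∂P = 0 := by
        rw [integral_congr_ae h]; simp
      filter_upwards [h] with ω hω
      rw [this, hω]; ring
  have hsub : ∀ R : ℝ, ann (2 * ρ + 1) R ⌈R + 2 * ρ + 2⌉₊ ⊆ box ⌈R + 2 * ρ + 2⌉₊ :=
    fun R => Finset.filter_subset _ _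
  refine ⟨C / δ, 2 * ρ + 1, fun R => ann (2 * ρ + 1) R ⌈R + 2 * ρ + 2⌉₊,
    div_pos hC hδ, by linarith, hsp, ?_, ?_, ?_, hmeas, hind, ?_⟩
  · intro R hR
    rw [F2 R (by linarith)]
    have h := hMEAN δ ρ μ hδ hξ.le_one hξ.prob hξ.supp R ⌈R + 2 * ρ + 2⌉₊ hR (Nat.le_ceil _)
    have e : C / δ * Real.sqrt R = C * Real.sqrt R / δ := by ring
    rw [e]
    simpa only [hmean] using h
  · intro R hR
    refine ⟨fun z hz => (Finset.mem_filter.1 hz).2, ?_⟩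
    have hR0 : 0 ≤ R := by linarith
    have hall : ∀ᵐ ω ∂P, ∀ z ∈ box ⌈R + 2 * ρ + 2⌉₊, z ∉ ann (2 * ρ + 1) R ⌈R + 2 * ρ + 2⌉₊ →
        ind ξ R z ω - ∫ ω, ind ξ R z ω ∂P = 0 := by
      rw [ae_all_iff]
      intro z
      by_cases hz : z ∈ box ⌈R + 2 * ρ + 2⌉₊
      · by_cases hz' : z ∈ ann (2 * ρ + 1) R ⌈R + 2 * ρ + 2⌉₊
        · exact Filter.Eventually.of_forall fun ω _ h => absurd hz' h
        · filter_upwards [F5 R hR0 z hz hz'] with ω hω _ _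
          exact hω
      · exact Filter.Eventually.of_forall fun ω h => absurd h hz
    filter_upwards [F1 R hR0, hall] with ω hω hω'
    rw [F2 R hR0, hω, ← Finset.sum_sub_distrib]
    exact (Finset.sum_subset (hsub R) fun z hz hz' => hω' z hz hz').symm
  · refine Tendsto.congr' ?_ hVAS
    filter_upwards [eventually_ge_atTop (1 : ℝ)] with R hR
    have hR0 : 0 ≤ R := by linarith
    have e := Finset.sum_subset (hsub R) (F4 R hR0)
    rw [e]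
    simp only [hmean]
  · filter_upwards [hae] with ω hω R R' hR hRR'
    refine Set.ncard_le_ncard ?_ (hω.1 R' ⌈R' + 2 * ρ + 2⌉₊ (le_trans hR hRR') (Nat.le_ceil _)).1
    intro z hz
    simp only [Set.mem_ofPred_eq] at hz ⊢
    exact le_trans hz (pow_le_pow_left₀ hR hRR' 2)

end Pool.Agent.U810.NG
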